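import Pool.Agent.TH803.TW.IsoA
import Pool.Agent.TH803.TW.Bump
import Pool.Agent.W354.ZP.Num

/-!
# Gaps between zeta zeros in Bohr sets (under RH)

Let `γ_n` be the ordinates of the nontrivial zeros of zeta and `δ_n` the normalised gaps. Assume
the Riemann hypothesis and let `α ∈ ℝ^k` have no integer relation. The points `α γ_n mod 1` are
equidistributed in the torus. Here the gaps `δ_n` with `α γ_n mod 1` in a given open set are
studied: a positive proportion of them is smaller than `0.61`, a positive proportion exceeds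
`1 + κ`, and most of the zeros are isolated.
-/

open Filter Topology Complex MeasureTheory

namespace Pool.Agent.Results.MP_21f43f_nt.BohrSetGaps

/-- multiplicity of `s` as a zero of the Riemann zeta function (order of vanishing at `s`) -/
noncomputable def zmult (s : ℂ) : ℕ := analyticOrderNatAt riemannZeta s

/-- the number of nontrivial zeros of `ζ` with ordinate in `(0, t]`, with multiplicity -/
noncomputable def NZ (t : ℝ) : ℕ :=
  ∑ᶠ s ∈ {s : ℂ | riemannZeta s = 0 ∧ 0 < s.re ∧ s.re < 1 ∧ 0 < s.im ∧ s.im ≤ t}, zmult s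

/-- for `n ≥ 1`: `γ_n`, the `n`-th positive ordinate of a nontrivial zero of `ζ`, the ordinates
being listed in nondecreasing order and repeated according to multiplicity -/
noncomputable def γ (n : ℕ) : ℝ := sInf {t : ℝ | n ≤ NZ t}

/-- the normalised gap `δ_n = (γ_{n+1} log γ_{n+1} - γ_n log γ_n) / 2π` -/
noncomputable def δ (n : ℕ) : ℝ :=
  (γ (n + 1) * Real.log (γ (n + 1)) - γ n * Real.log (γ n)) / (2 * Real.pi)

/-- the point `α t mod 1` of the torus `(ℝ/ℤ)^k` -/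
def pt {k : ℕ} (α : Fin k → ℝ) (t : ℝ) : UnitAddTorus (Fin k) :=
  fun j => ((α j * t : ℝ) : UnitAddCircle)

/-- the normalised Haar measure of the torus -/
noncomputable def haar (k : ℕ) : Measure (UnitAddTorus (Fin k)) :=
  Measure.pi fun _ => AddCircle.haarAddCircle

/-- `G(β) = β + 2β ∫_0^1 a (1 - βa + sin (2πβa) / 2π) da` -/
noncomputable def G (β : ℝ) : ℝ :=
  β + 2 * β * ∫ a in (0 : ℝ)..1,
    a * (1 - β * a + Real.sin (2 * Real.pi * (β * a)) / (2 * Real.pi))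

/-- `c(h) = h/2 + cot (h/√2) / √2` -/
noncomputable def c (h : ℝ) : ℝ := h / 2 + Real.cot (h / Real.sqrt 2) / Real.sqrt 2

lemma line_zeta (RH : RiemannHypothesis) : TH803TW.Line riemannZeta := by
  intro s h1 h2 h3 h4
  refine RH s h4 ?_ ?_
  · rintro ⟨n, rfl⟩
    simp at h1
    have : (0 : ℝ) ≤ n := Nat.cast_nonneg n
    linarith
  · rintro rfl
    norm_num at h3

lemma γ_eq (n : ℕ) : γ n = SG.ord n := rfl

lemma δ_eq (n : ℕ) : δ n = LG.dlt n := rfl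

lemma G_eq (β : ℝ) : G β = H370.A3.gg β 1 := rfl

/-- the bump functions, evaluated along the line -/
lemma bump {k : ℕ} {α : Fin k → ℝ} (hα : ∀ n : Fin k → ℤ, ∑ j, (n j : ℝ) * α j = 0 → n = 0)
    {U : Set (UnitAddTorus (Fin k))} (hU : IsOpen U) (hne : U.Nonempty) :
    ∃ (g : ℝ → ℝ) (D1 M : ℝ), (∀ t, |g t| ≤ 1) ∧ (∀ x y, |g x - g y| ≤ D1 * |x - y|) ∧
      TH803TW.APm (fun t => g t ^ 2) M ∧ 0 < M ∧ ∀ t, g t ≠ 0 → pt α t ∈ U := by
  obtain ⟨F, hF0, hF1, hFU, hFl, hFM⟩ := TH803TW.torus_bump hU hne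
  refine ⟨fun t => F (TH803TW.torusPt α t), ∑ j, |α j|, ∫ x, (F x) ^ 2 ∂(TH803TW.haarT k),
    fun t => ?_, fun x y => ?_, ?_, hFM, fun t ht => ?_⟩
  · rw [abs_of_nonneg (hF0 _)]; exact hF1 _
  · exact (hFl _ _).trans (TH803TW.torusPt_dist α x y)
  · exact TH803TW.APm_torus hα (F ^ 2)
  · by_contra hcon
    exact ht (hFU _ hcon)

lemma fin_range (T : ℝ) (P : ℕ → Prop) : {n : ℕ | 1 ≤ n ∧ γ n ≤ T ∧ P n}.Finite := by
  refine (Set.finite_Iic (SG.NZ T)).subset ?_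
  rintro n ⟨h1, h2, -⟩
  exact (SG.ord_le_iff h1 T).mp h2

/-- a weighted sum bounds a count -/
lemma count_le {S : Finset ℕ} {g : ℝ → ℝ} (hg : ∀ t, |g t| ≤ 1) {A : Set ℕ} (hA : A.Finite)
    (hS : ∀ n ∈ S, g (SG.ord n) ≠ 0 → n ∈ A) :
    ∑ n ∈ S, g (SG.ord n) ^ 2 ≤ (A.ncard : ℝ) := by
  classical
  have h1 : ∑ n ∈ S, g (SG.ord n) ^ 2 ≤ ∑ n ∈ S.filter (fun n => g (SG.ord n) ≠ 0), (1 : ℝ) := by
    rw [Finset.sum_filter]
    refine Finset.sum_le_sum fun n _ => ?_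
    split_ifs with h
    · have := hg (SG.ord n)
      rw [← sq_abs]
      exact pow_le_one₀ (abs_nonneg _) this
    · push Not at h
      rw [h]
      norm_num
  refine h1.trans ?_
  rw [Finset.sum_const, nsmul_eq_mul, mul_one]
  have h2 : ((S.filter (fun n => g (SG.ord n) ≠ 0) : Finset ℕ) : Set ℕ) ⊆ A := by
    intro n hn
    rw [Finset.mem_coe, Finset.mem_filter] at hn
    exact hS n hn.1 hn.2
  have h3 := Set.ncard_le_ncard h2 hA
  rw [Set.ncard_coe_finset] at h3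
  exact_mod_cast h3

/-- small gaps -/
theorem small (RH : RiemannHypothesis) {k : ℕ} {α : Fin k → ℝ}
    (hα : ∀ n : Fin k → ℤ, ∑ j, (n j : ℝ) * α j = 0 → n = 0) {U : Set (UnitAddTorus (Fin k))}
    (hU : IsOpen U) (hne : U.Nonempty) {β : ℝ} (hβ : 0 < β) (hβ1 : β ≤ 1) (hG : 1 < G β) :
    ∃ c₀ T₀ : ℝ, 0 < c₀ ∧ ∀ T : ℝ, T₀ ≤ T → c₀ * (T * Real.log T) ≤
      ({n : ℕ | 1 ≤ n ∧ T < γ n ∧ γ n ≤ 2 * T ∧ pt α (γ n) ∈ U ∧ δ n < β}.ncard : ℝ) := by
  have hpi := Real.pi_pos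
  obtain ⟨g, D1, M, hg1, hgl, hgM, hM0, hgU⟩ := bump hα hU hne
  rw [G_eq] at hG
  obtain ⟨b, hb0, hb1, hb2⟩ : ∃ b : ℝ, 0 < b ∧ b < β ∧ 1 < H370.A3.gg b 1 := by
    have e1 : ∀ᶠ x : ℝ in 𝓝[<] β, x < β := self_mem_nhdsWithin
    have e2 : ∀ᶠ x : ℝ in 𝓝[<] β, 0 < x := nhdsWithin_le_nhds (lt_mem_nhds hβ)
    have e3 : ∀ᶠ x : ℝ in 𝓝[<] β, 1 < H370.A3.gg x 1 :=
      nhdsWithin_le_nhds ((H370.A3.gg_cont_beta _).continuousAt.eventually (lt_mem_nhds hG))
    obtain ⟨x, ⟨h1, h2⟩, h3⟩ := ((e1.and e2).and e3).exists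
    exact ⟨x, h2, h1, h3⟩
  obtain ⟨c₀, T1, hc₀, hT1, h1⟩ := TH803TW.small_gap_weight RH (line_zeta RH) hg1 hgl hgM hM0 b
    hb0 (by linarith) hb2
  obtain ⟨T2, hT2⟩ := (Real.tendsto_log_atTop.eventually_ge_atTop
    (3 * b / (β - b) + 1)).exists_forall_of_atTop
  refine ⟨c₀, max T1 T2, hc₀, fun T hT => ?_⟩
  have hTT1 : T1 ≤ T := (le_max_left _ _).trans hT
  have hL1 := hT2 T ((le_max_right _ _).trans hT)
  have hT10 : 10 ≤ T := hT1.trans hTT1
  have hLpos : 0 < Real.log T := Real.log_pos (by linarith)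
  refine (h1 T hTT1).trans ?_
  refine count_le hg1 ((fin_range (2 * T) (fun _ => True)).subset
    (fun n hn => ⟨hn.1, hn.2.2.1, trivial⟩)) fun n hn hgn => ?_
  rw [Set.Finite.mem_toFinset] at hn
  obtain ⟨g1, g2, g3, g4⟩ := hn
  have hm : SG.ord n ≤ SG.ord (n + 1) := SG.ord_mono g1 (Nat.le_succ n)
  have hx0 : 0 < SG.ord n := SG.ord_pos g1
  refine ⟨g1, ?_, ?_, hgU _ hgn, ?_⟩
  · show T < SG.ord n
    linarith
  · show SG.ord n ≤ 2 * T
    linarith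
  rw [δ_eq]
  unfold LG.dlt
  have h5 := H370.A3.xlog_aux hx0 hm
  have hlog : Real.log (SG.ord (n + 1)) + 1 ≤ Real.log T + 3 := by
    have h6 : Real.log (SG.ord (n + 1)) ≤ Real.log (2 * T) :=
      Real.log_le_log (hx0.trans_le hm) (by linarith)
    rw [Real.log_mul (by norm_num) (by linarith)] at h6
    have h7 : Real.log 2 ≤ 2 := by
      have := Real.log_two_lt_d9
      linarith
    linarith
  have hlog0 : 0 ≤ Real.log (SG.ord (n + 1)) + 1 := by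
    have : 0 ≤ Real.log (SG.ord (n + 1)) := Real.log_nonneg (by linarith)
    linarith
  rw [div_lt_iff₀ (by positivity)]
  calc _ ≤ (SG.ord (n + 1) - SG.ord n) * (Real.log (SG.ord (n + 1)) + 1) := h5
    _ ≤ (2 * Real.pi * b / Real.log T) * (Real.log T + 3) := by gcongr
    _ = b * (1 + 3 / Real.log T) * (2 * Real.pi) := by field_simp
    _ < β * (2 * Real.pi) := by
        apply mul_lt_mul_of_pos_right _ (by positivity)
        have h8 : 3 * b / (β - b) < Real.log T := by linarith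
        rw [div_lt_iff₀ (by linarith)] at h8
        have h9 : b * (1 + 3 / Real.log T) = b + 3 * b / Real.log T := by ring
        rw [h9]
        have h10 : 3 * b / Real.log T < β - b := by
          rw [div_lt_iff₀ hLpos]; linarith
        linarith

/-- large gaps -/
theorem large (RH : RiemannHypothesis) {k : ℕ} {α : Fin k → ℝ}
    (hα : ∀ n : Fin k → ℤ, ∑ j, (n j : ℝ) * α j = 0 → n = 0) {U : Set (UnitAddTorus (Fin k))}
    (hU : IsOpen U) (hne : U.Nonempty) :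
    ∃ c₀ κ T₀ : ℝ, 0 < c₀ ∧ 0 < κ ∧ ∀ T : ℝ, T₀ ≤ T → c₀ * (T * Real.log T) ≤
      ({n : ℕ | 1 ≤ n ∧ T < γ n ∧ γ n ≤ 2 * T ∧ pt α (γ n) ∈ U ∧ 1 + κ < δ n}.ncard : ℝ) := by
  obtain ⟨g, D1, M, hg1, hgl, hgM, hM0, hgU⟩ := bump hα hU hne
  obtain ⟨c₀, κ, T1, hc₀, hκ, hT1, h1⟩ := TH803TW.large_gap_weight RH (line_zeta RH) hg1 hgl hgM hM0
  refine ⟨c₀, κ, T1, hc₀, hκ, fun T hT => (h1 T hT).trans ?_⟩
  refine count_le hg1 ((fin_range (2 * T) (fun _ => True)).subset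
    (fun n hn => ⟨hn.1, hn.2.2.1, trivial⟩)) fun n hn hgn => ?_
  rw [Finset.mem_filter, Finset.mem_Ico] at hn
  obtain ⟨⟨g1, g2⟩, g3⟩ := hn
  have hn1 : 1 ≤ n := by omega
  refine ⟨hn1, ?_, ?_, hgU _ hgn, g3⟩
  · show T < SG.ord n
    by_contra hcon
    push Not at hcon
    have := (SG.ord_le_iff hn1 (T + 1)).mp (by linarith)
    omega
  · show SG.ord n ≤ 2 * T
    have := (SG.ord_le_iff hn1 (2 * T - 1)).mpr (by omega)
    linarith

/-- isolated zeros -/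
theorem isolated (RH : RiemannHypothesis) {k : ℕ} {α : Fin k → ℝ}
    (hα : ∀ n : Fin k → ℤ, ∑ j, (n j : ℝ) * α j = 0 → n = 0) {U : Set (UnitAddTorus (Fin k))}
    (hU : IsOpen U) {h a ε : ℝ} (hh0 : 0 < h) (hh1 : h ≤ 1) (ha : 0 < a)
    (hE : (2 * Real.pi * a * h) ^ 2 < 24) (hε : 0 < ε) :
    ∃ T₀ : ℝ, ∀ T : ℝ, T₀ ≤ T → ∀ H : ℝ, T ^ h ≤ H → H ≤ T →
      ((1 - (c h - 1) / (1 - (2 * Real.pi * a * h) ^ 2 / 24) ^ 2) * (haar k U).toReal - ε) *
        ((NZ (T + H) : ℝ) - NZ T) ≤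
      ({n : ℕ | 1 ≤ n ∧ T < γ n ∧ γ n ≤ T + H ∧ pt α (γ n) ∈ U ∧ a < δ (n - 1) ∧
        a < δ n}.ncard : ℝ) := by
  classical
  set κ : ℝ := 1 - (c h - 1) / (1 - (2 * Real.pi * a * h) ^ 2 / 24) ^ 2 with hκ
  obtain ⟨f, hf0, hf1, hfU, hfM⟩ := TH803TW.torus_lower hU (ε := ε / (2 * (|κ| + 1)))
    (by positivity)
  have hAPm := TH803TW.APm_torus hα f
  set M := ∫ x, f x ∂(TH803TW.haarT k) with hM
  have hM0 : 0 ≤ M := by
    rw [hM]
    exact MeasureTheory.integral_nonneg fun x => hf0 x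
  obtain ⟨T1, hT1, h1⟩ := TH803TW.iso_all RH (line_zeta RH) hAPm (fun t => hf0 _) hM0 h a (ε / 2)
    hh0 hh1 ha (by linarith) (by positivity)
  refine ⟨T1, fun T hT H hH1 hH2 => ?_⟩
  have hT10 : 10 ≤ T := hT1.trans hT
  have hH0 : 0 < H := (Real.rpow_pos_of_pos (by linarith) h).trans_le hH1
  have h2 := h1 T hT H hH1 hH2
  have hN0 : (0 : ℝ) ≤ (NZ (T + H) : ℝ) - NZ T := by
    have h3 : NZ T ≤ NZ (T + H) := SG.NZ_mono (by linarith)
    have h4 : (NZ T : ℝ) ≤ NZ (T + H) := by exact_mod_cast h3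
    linarith
  have hcount : ∑ n ∈ (Finset.Ioc (SG.NZ T) (SG.NZ (T + H))).filter
          (fun n => a < LG.dlt (n - 1) ∧ a < LG.dlt n), f (TH803TW.torusPt α (SG.ord n)) ≤
      ({n : ℕ | 1 ≤ n ∧ T < γ n ∧ γ n ≤ T + H ∧ pt α (γ n) ∈ U ∧ a < δ (n - 1) ∧
        a < δ n}.ncard : ℝ) := by
    obtain ⟨S, hS⟩ : ∃ S : Finset ℕ, S = (Finset.Ioc (SG.NZ T) (SG.NZ (T + H))).filter
          (fun n => a < LG.dlt (n - 1) ∧ a < LG.dlt n) := ⟨_, rfl⟩
    rw [← hS]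
    have h3 : ∑ n ∈ S, f (TH803TW.torusPt α (SG.ord n)) ≤
        ∑ n ∈ S.filter (fun n => pt α (γ n) ∈ U), (1 : ℝ) := by
      rw [Finset.sum_filter]
      refine Finset.sum_le_sum fun n _ => ?_
      split_ifs with h4
      · exact hf1 _
      · exact (hfU _ h4).le
    refine h3.trans ?_
    rw [Finset.sum_const, nsmul_eq_mul, mul_one]
    have hsub : ((S.filter (fun n => pt α (γ n) ∈ U) : Finset ℕ) : Set ℕ) ⊆
        {n : ℕ | 1 ≤ n ∧ T < γ n ∧ γ n ≤ T + H ∧ pt α (γ n) ∈ U ∧ a < δ (n - 1) ∧ a < δ n} := by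
      intro n hn
      rw [Finset.mem_coe, Finset.mem_filter, hS, Finset.mem_filter, Finset.mem_Ioc] at hn
      obtain ⟨⟨⟨g1, g2⟩, g3, g4⟩, g5⟩ := hn
      have hn1 : 1 ≤ n := by omega
      refine ⟨hn1, ?_, ?_, g5, g3, g4⟩
      · show T < SG.ord n
        by_contra hcon
        push Not at hcon
        have := (SG.ord_le_iff hn1 T).mp hcon
        omega
      · exact (SG.ord_le_iff hn1 _).mpr g2
    have hfin := (fin_range (T + H) (fun _ => True)).subset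
      (fun n (hn : n ∈ {n : ℕ | 1 ≤ n ∧ T < γ n ∧ γ n ≤ T + H ∧ pt α (γ n) ∈ U ∧ a < δ (n - 1) ∧
        a < δ n}) => ⟨hn.1, hn.2.2.1, trivial⟩)
    have h4 := Set.ncard_le_ncard hsub hfin
    rw [Set.ncard_coe_finset] at h4
    exact_mod_cast h4
  -- the constants
  rcases le_or_gt κ 0 with hκ0 | hκ0
  · have h3 : κ * (haar k U).toReal ≤ 0 :=
      mul_nonpos_of_nonpos_of_nonneg hκ0 ENNReal.toReal_nonneg
    have h4 : (κ * (haar k U).toReal - ε) * ((NZ (T + H) : ℝ) - NZ T) ≤ 0 :=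
      mul_nonpos_of_nonpos_of_nonneg (by linarith) hN0
    exact h4.trans (Nat.cast_nonneg _)
  · refine le_trans ?_ (h2.trans hcount)
    have e1 : M - M * (H295SI.cc h - 1) / (1 - (2 * Real.pi * a * h) ^ 2 / 24) ^ 2 - ε / 2 =
        κ * M - ε / 2 := by
      rw [hκ]
      have : H295SI.cc h = c h := rfl
      rw [this]
      ring
    rw [e1]
    apply mul_le_mul_of_nonneg_right _ hN0
    have e2 : κ * ((haar k U).toReal - ε / (2 * (|κ| + 1))) ≤ κ * M :=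
      mul_le_mul_of_nonneg_left hfM hκ0.le
    have e3 : κ * (ε / (2 * (|κ| + 1))) ≤ ε / 2 := by
      rw [abs_of_pos hκ0]
      have : κ * (ε / (2 * (κ + 1))) = κ / (κ + 1) * (ε / 2) := by field_simp
      rw [this]
      calc κ / (κ + 1) * (ε / 2) ≤ 1 * (ε / 2) := by
            gcongr
            rw [div_le_one (by positivity)]
            linarith
        _ = _ := one_mul _
    linarith

/-- `G(0.61) > 1` -/
lemma G_num : 1 < G (61 / 100) := by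
  have hpi1 : 3.1415 < Real.pi := Real.pi_gt_d4
  have hpi2 : Real.pi < 3.1416 := Real.pi_lt_d4
  set β : ℝ := 61 / 100 with hβ
  set m : ℝ := 2 * Real.pi * β with hm
  have hm0 : 0 < m := by positivity
  have hder : ∀ a ∈ Set.uIcc (0 : ℝ) 1, HasDerivAt (fun a : ℝ => a ^ 2 / 2 - β * a ^ 3 / 3 +
      (Real.sin (m * a) / m ^ 2 - a * Real.cos (m * a) / m) / (2 * Real.pi))
      (a * (1 - β * a + Real.sin (2 * Real.pi * (β * a)) / (2 * Real.pi))) a := by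
    intro a _
    have h0 : HasDerivAt (fun y : ℝ => m * y) m a := by simpa using (hasDerivAt_id a).const_mul m
    have h1 : HasDerivAt (fun y : ℝ => y ^ 2 / 2) a a := by
      have := ((hasDerivAt_id a).fun_pow 2).div_const 2
      refine this.congr_deriv ?_
      simp
    have h2 : HasDerivAt (fun y : ℝ => β * y ^ 3 / 3) (β * a ^ 2) a := by
      have := (((hasDerivAt_id a).fun_pow 3).const_mul β).div_const 3
      refine this.congr_deriv ?_
      simp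
      ring
    have h3 := (h0.sin.div_const (m ^ 2)).sub (((hasDerivAt_id a).mul h0.cos).div_const m)
    have h4 := (h1.sub h2).add (h3.div_const (2 * Real.pi))
    refine h4.congr_deriv ?_
    have e : 2 * Real.pi * (β * a) = m * a := by rw [hm]; ring
    rw [e]
    simp only [id]
    field_simp
    ring
  have hc : Continuous fun a : ℝ =>
      a * (1 - β * a + Real.sin (2 * Real.pi * (β * a)) / (2 * Real.pi)) := by fun_prop
  have hint := intervalIntegral.integral_eq_sub_of_hasDerivAt hder (hc.intervalIntegrable _ _)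
  unfold G
  rw [hint]
  simp only [mul_one, mul_zero, Real.sin_zero, one_pow, zero_div, one_mul, zero_mul, sub_zero,
    ne_eq, OfNat.ofNat_ne_zero, not_false_eq_true, zero_pow, sub_self, add_zero]
  -- bounds for the trigonometric functions
  set x : ℝ := m - Real.pi with hx
  have hx1 : x = Real.pi * (22 / 100) := by rw [hx, hm, hβ]; ring
  have hsin : Real.sin m = -Real.sin x := by
    have : m = x + Real.pi := by rw [hx]; ring
    rw [this, Real.sin_add_pi]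
  have hcos : Real.cos m = -Real.cos x := by
    have : m = x + Real.pi := by rw [hx]; ring
    rw [this, Real.cos_add_pi]
  have hx0 : 0 ≤ x := by rw [hx1]; positivity
  have hs : Real.sin x ≤ x := Real.sin_le hx0
  have hcx : 1 - x ^ 2 / 2 ≤ Real.cos x := Real.one_sub_sq_div_two_le_cos
  have hx2 : x ≤ 0.69116 := by rw [hx1]; linarith
  have hxl : 0.69113 ≤ x := by rw [hx1]; linarith
  have hcx' : 0.7611 ≤ Real.cos x := by nlinarith
  have hm1 : 3.8326 ≤ m := by rw [hm, hβ]; linarith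
  have hm2 : m ≤ 3.8328 := by rw [hm, hβ]; linarith
  rw [hsin, hcos]
  have h1 : -0.0471 ≤ -Real.sin x / m ^ 2 := by
    rw [le_div_iff₀ (by positivity)]
    nlinarith
  have h2 : 0.1985 ≤ Real.cos x / m := by
    rw [le_div_iff₀ hm0]
    nlinarith
  have h3 : -Real.sin x / m ^ 2 - -Real.cos x / m = -Real.sin x / m ^ 2 + Real.cos x / m := by ring
  rw [h3]
  have h4 : 0.1514 / (2 * Real.pi) ≤ (-Real.sin x / m ^ 2 + Real.cos x / m) / (2 * Real.pi) := by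
    gcongr
    linarith
  have h5 : 0.02409 ≤ 0.1514 / (2 * Real.pi) := by
    rw [le_div_iff₀ (by positivity)]
    linarith
  rw [hβ]
  linarith

/-- numerical values for isolated zeros -/
lemma iso_num : 0.66 ≤ 1 - (c 1 - 1) / (1 - (2 * Real.pi * (1 / 10) * 1) ^ 2 / 24) ^ 2 ∧
    0.59 ≤ 1 - (c 1 - 1) / (1 - (2 * Real.pi * (1 / 4) * 1) ^ 2 / 24) ^ 2 := by
  have hpi := Real.pi_pos
  have hpi2 : Real.pi < 3.1416 := Real.pi_lt_d4
  have hc : c 1 ≤ 1.3275 := by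
    have h := Pool.Agent.W354.ZP.cMTinv_sharp
    unfold H370.cMTinv at h
    unfold c
    exact h
  have hpp : Real.pi ^ 2 ≤ 9.8697 := by nlinarith
  constructor
  · have hE : 0.9835 ≤ 1 - (2 * Real.pi * (1 / 10) * 1) ^ 2 / 24 := by nlinarith
    have hE2 : 0.967 ≤ (1 - (2 * Real.pi * (1 / 10) * 1) ^ 2 / 24) ^ 2 := by nlinarith
    have : (c 1 - 1) / (1 - (2 * Real.pi * (1 / 10) * 1) ^ 2 / 24) ^ 2 ≤ 0.34 := by
      rw [div_le_iff₀ (by linarith)]
      linarith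
    linarith
  · have hE : 0.897 ≤ 1 - (2 * Real.pi * (1 / 4) * 1) ^ 2 / 24 := by nlinarith
    have hE2 : 0.804 ≤ (1 - (2 * Real.pi * (1 / 4) * 1) ^ 2 / 24) ^ 2 := by nlinarith
    have : (c 1 - 1) / (1 - (2 * Real.pi * (1 / 4) * 1) ^ 2 / 24) ^ 2 ≤ 0.41 := by
      rw [div_le_iff₀ (by linarith)]
      linarith
    linarith

/-- **gaps between zeros in Bohr sets, assuming RH** -/
theorem result (RH : RiemannHypothesis) (k : ℕ) (α : Fin k → ℝ)
    (hα : ∀ n : Fin k → ℤ, ∑ j, (n j : ℝ) * α j = 0 → n = 0) (U : Set (UnitAddTorus (Fin k)))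
    (hU : IsOpen U) :
    -- small gaps
    (U.Nonempty → ∀ β : ℝ, 0 < β → β ≤ 1 → 1 < G β →
      ∃ c₀ T₀ : ℝ, 0 < c₀ ∧ ∀ T : ℝ, T₀ ≤ T → c₀ * (T * Real.log T) ≤
        ({n : ℕ | 1 ≤ n ∧ T < γ n ∧ γ n ≤ 2 * T ∧ pt α (γ n) ∈ U ∧ δ n < β}.ncard : ℝ)) ∧
    -- large gaps
    (U.Nonempty → ∃ c₀ κ T₀ : ℝ, 0 < c₀ ∧ 0 < κ ∧ ∀ T : ℝ, T₀ ≤ T → c₀ * (T * Real.log T) ≤
      ({n : ℕ | 1 ≤ n ∧ T < γ n ∧ γ n ≤ 2 * T ∧ pt α (γ n) ∈ U ∧ 1 + κ < δ n}.ncard : ℝ)) ∧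
    -- isolated zeros
    (∀ h a ε : ℝ, 0 < h → h ≤ 1 → 0 < a → (2 * Real.pi * a * h) ^ 2 < 24 → 0 < ε →
      ∃ T₀ : ℝ, ∀ T : ℝ, T₀ ≤ T → ∀ H : ℝ, T ^ h ≤ H → H ≤ T →
        ((1 - (c h - 1) / (1 - (2 * Real.pi * a * h) ^ 2 / 24) ^ 2) * (haar k U).toReal - ε) *
          ((NZ (T + H) : ℝ) - NZ T) ≤
        ({n : ℕ | 1 ≤ n ∧ T < γ n ∧ γ n ≤ T + H ∧ pt α (γ n) ∈ U ∧ a < δ (n - 1) ∧
          a < δ n}.ncard : ℝ)) ∧
    -- numerical values
    1 < G 0.61 ∧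
    0.66 ≤ 1 - (c 1 - 1) / (1 - (2 * Real.pi * (1 / 10) * 1) ^ 2 / 24) ^ 2 ∧
    0.59 ≤ 1 - (c 1 - 1) / (1 - (2 * Real.pi * (1 / 4) * 1) ^ 2 / 24) ^ 2 := by
  refine ⟨fun hne β hβ hβ1 hG => small RH hα hU hne hβ hβ1 hG, fun hne => large RH hα hU hne,
    fun h a ε hh0 hh1 ha hE hε => isolated RH hα hU hh0 hh1 ha hE hε, ?_, iso_num⟩
  have h := G_num
  norm_num at h ⊢
  exact h

end Pool.Agent.Results.MP_21f43f_nt.BohrSetGaps
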