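import Pool.Agent.TH800.DM.Ta

namespace Pool.Agent.Results.MP_21f43f_nt.DispersionMicroscopic

/-- multiplicity of `s` as a zero of the Riemann zeta function (order of vanishing at `s`) -/
noncomputable def zmult (s : ℂ) : ℕ := analyticOrderNatAt riemannZeta s

/-- the number of nontrivial zeros of `ζ` with ordinate in `(0, t]`, with multiplicity -/
noncomputable def NZ (t : ℝ) : ℕ :=
  ∑ᶠ s ∈ {s : ℂ | riemannZeta s = 0 ∧ 0 < s.re ∧ s.re < 1 ∧ 0 < s.im ∧ s.im ≤ t}, zmult s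

/-- for `n ≥ 1`: the `n`-th positive ordinate `γ n` of a nontrivial zero of `ζ`, the ordinates being
listed in nondecreasing order and repeated according to multiplicity -/
noncomputable def γ (n : ℕ) : ℝ := sInf {t : ℝ | n ≤ NZ t}

/-- the normalised gaps `δ_n = (γ_{n+1} log γ_{n+1} - γ_n log γ_n) / 2π` -/
noncomputable def δ (n : ℕ) : ℝ :=
  (γ (n + 1) * Real.log (γ (n + 1)) - γ n * Real.log (γ n)) / (2 * Real.pi)

/-- the number of the `m` consecutive gaps `δ_n, …, δ_{n+m-1}` that are smaller than `1 - c` -/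
noncomputable def small (c : ℝ) (m n : ℕ) : ℕ := {i : ℕ | i < m ∧ δ (n + i) < 1 - c}.ncard

/-- the number of the `m` consecutive gaps `δ_n, …, δ_{n+m-1}` that are larger than `1 + c` -/
noncomputable def large (c : ℝ) (m n : ℕ) : ℕ := {i : ℕ | i < m ∧ 1 + c < δ (n + i)}.ncard

/-- the sum of those of the `m` consecutive gaps `δ_n, …, δ_{n+m-1}` that are larger than `H` -/
noncomputable def mass (H : ℝ) (m n : ℕ) : ℝ :=
  ∑ i ∈ Finset.range m, if H < δ (n + i) then δ (n + i) else 0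

/-- On the Riemann hypothesis there is an absolute constant `c > 0` such that: (1) all but at most
`C N (1/m + 1/log N)` of the `n ≤ N` have more than `c m` gaps smaller than `1 - c` and more than
`c m` gaps larger than `1 + c` among the `m` consecutive normalised gaps `δ_n, …, δ_{n+m-1}`,
uniformly in `N ≥ 2` and `m ≥ 1`; (2) consequently for every `ε > 0` there is a fixed `m` for which
this holds for all but at most `ε N` of the `n ≤ N`, for all large `N`; (3) there is an absolute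
constant `C` such that for every `H ≥ 1` the gaps larger than `H` among `δ_n, …, δ_{n+m-1}` have sum
less than `C m / H²` for all but at most `K_H N / m` of the `n ≤ N`, uniformly in `N ≥ 2` and
`1 ≤ m ≤ (log N) / 8`. -/
theorem result (RH : RiemannHypothesis) :
    (∃ c : ℝ, 0 < c ∧
      (∃ C : ℝ, 0 < C ∧ ∀ N : ℕ, 2 ≤ N → ∀ m : ℕ, 1 ≤ m →
        ({n : ℕ | 1 ≤ n ∧ n ≤ N ∧
          ((small c m n : ℝ) ≤ c * m ∨ (large c m n : ℝ) ≤ c * m)}.ncard : ℝ) ≤
          C * (N * (1 / m + 1 / Real.log N))) ∧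
      (∀ ε : ℝ, 0 < ε → ∃ m N₀ : ℕ, 1 ≤ m ∧ ∀ N : ℕ, N₀ ≤ N →
        ({n : ℕ | 1 ≤ n ∧ n ≤ N ∧
          ((small c m n : ℝ) ≤ c * m ∨ (large c m n : ℝ) ≤ c * m)}.ncard : ℝ) ≤ ε * N)) ∧
    (∃ C : ℝ, 0 < C ∧ ∀ H : ℝ, 1 ≤ H → ∃ K : ℝ, 0 < K ∧
      ∀ N : ℕ, 2 ≤ N → ∀ m : ℕ, 1 ≤ m → (m : ℝ) ≤ 1 / 8 * Real.log N →
        ({n : ℕ | 1 ≤ n ∧ n ≤ N ∧ C / H ^ 2 * m ≤ mass H m n}.ncard : ℝ) ≤ K * (N * (1 / m))) := by
  classical
  obtain ⟨C, c, hC, hc, -, h⟩ := Pool.Agent.TH800.DM.final RH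
  have hs : ∀ m n : ℕ, ∑ i ∈ Finset.range m, Pool.Agent.TH800.DM.sm c
      (Pool.Agent.TH800.MS.dlt (n + i)) = (small c m n : ℝ) := by
    intro m n
    have e1 : {i : ℕ | i < m ∧ δ (n + i) < 1 - c} =
        ((Finset.range m).filter (fun i => δ (n + i) < 1 - c) : Finset ℕ) := by
      ext i
      simp
    unfold small
    rw [e1, Set.ncard_coe_finset, Finset.card_filter]
    push_cast
    rfl
  have hl : ∀ m n : ℕ, ∑ i ∈ Finset.range m, Pool.Agent.TH800.DM.lg c
      (Pool.Agent.TH800.MS.dlt (n + i)) = (large c m n : ℝ) := by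
    intro m n
    have e1 : {i : ℕ | i < m ∧ 1 + c < δ (n + i)} =
        ((Finset.range m).filter (fun i => 1 + c < δ (n + i)) : Finset ℕ) := by
      ext i
      simp
    unfold large
    rw [e1, Set.ncard_coe_finset, Finset.card_filter]
    push_cast
    rfl
  have h1 : ∀ N : ℕ, 2 ≤ N → ∀ m : ℕ, 1 ≤ m →
      ({n : ℕ | 1 ≤ n ∧ n ≤ N ∧
        ((small c m n : ℝ) ≤ c * m ∨ (large c m n : ℝ) ≤ c * m)}.ncard : ℝ) ≤
        C * (N * (1 / m + 1 / Real.log N)) := by
    intro N hN m hm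
    have h2 := h N hN m hm
    simp_rw [hs, hl] at h2
    exact h2
  refine ⟨⟨c, hc, ⟨C, hC, h1⟩, fun ε hε => ?_⟩, Pool.Agent.TH800.DM.tail RH⟩
  have e1 : ∀ᶠ m : ℕ in Filter.atTop, C * (1 / (m : ℝ)) ≤ ε / 2 := by
    have h4 : Filter.Tendsto (fun m : ℕ => C * (1 / (m : ℝ))) Filter.atTop (nhds (C * 0)) :=
      tendsto_one_div_atTop_nhds_zero_nat.const_mul C
    rw [mul_zero] at h4
    exact h4.eventually_le_const (by positivity)
  obtain ⟨m, hm1, hm2⟩ := (e1.and (Filter.eventually_ge_atTop 1)).exists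
  have e2 : ∀ᶠ N : ℕ in Filter.atTop, C * (1 / Real.log N) ≤ ε / 2 := by
    have h4 : Filter.Tendsto (fun N : ℕ => C * (1 / Real.log N)) Filter.atTop (nhds (C * 0)) := by
      have h5 : Filter.Tendsto (fun N : ℕ => (Real.log N)⁻¹) Filter.atTop (nhds 0) :=
        tendsto_inv_atTop_zero.comp (Real.tendsto_log_atTop.comp tendsto_natCast_atTop_atTop)
      simp only [one_div]
      exact h5.const_mul C
    rw [mul_zero] at h4
    exact h4.eventually_le_const (by positivity)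
  obtain ⟨N₁, hN₁⟩ := e2.exists_forall_of_atTop
  refine ⟨m, max 2 N₁, hm2, fun N hN => (h1 N ((le_max_left _ _).trans hN) m hm2).trans ?_⟩
  have h4 := hN₁ N ((le_max_right _ _).trans hN)
  have h5 : C * (N * (1 / (m : ℝ) + 1 / Real.log N)) =
      (C * (1 / (m : ℝ)) + C * (1 / Real.log N)) * N := by ring
  rw [h5]
  apply mul_le_mul_of_nonneg_right _ (Nat.cast_nonneg _)
  linarith

end Pool.Agent.Results.MP_21f43f_nt.DispersionMicroscopic
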