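import Pool.Agent.H177R3.LatE

/-!
Assume the Riemann hypothesis.  The normalised gaps of the zeta zeros do not concentrate on a
lattice `s ℤ` with `s > 1/2`: a positive proportion of them stays away from `s ℤ`, and this holds
in almost all short intervals.  For `s = 1/2` the corresponding statement would disprove the
Alternative Hypothesis.

Idea of the proof (theorem `H177.Lat.almost_delta` of the starting files).  Let `θ = 1 / s < 2`.  If
almost all the gaps were close to `s ℤ`, then for nearby zeros the frequencies `α` and `α - θ` would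
be indistinguishable, whereas Montgomery's theorem gives the different values `|α|` and `|α - θ|` for
the form factor at two such frequencies in `(-1, 1)`.  The passage from pairs to consecutive zeros
uses bounds for the moments of the number of zeros in windows of bounded length at the scale of the
mean spacing.
-/

open Filter MeasureTheory

namespace Pool.Agent.Results.MP_21f43f_nt.LatticeExclusion

/-- multiplicity of `s` as a zero of the Riemann zeta function (order of vanishing at `s`) -/
noncomputable def zmult (s : ℂ) : ℕ := analyticOrderNatAt riemannZeta s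

/-- the number of nontrivial zeros of `ζ` with ordinate in `(0, t]`, with multiplicity -/
noncomputable def NZ (t : ℝ) : ℕ :=
  ∑ᶠ s ∈ {s : ℂ | riemannZeta s = 0 ∧ 0 < s.re ∧ s.re < 1 ∧ 0 < s.im ∧ s.im ≤ t}, zmult s

/-- for `n ≥ 1`: the `n`-th positive ordinate `γ n` of a nontrivial zero of `ζ`, the ordinates being
listed in nondecreasing order and repeated according to multiplicity -/
noncomputable def γ (n : ℕ) : ℝ := sInf {t : ℝ | n ≤ NZ t}

/-- the normalised gaps `δ_n = (γ_{n+1} log γ_{n+1} - γ_n log γ_n) / 2π` -/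
noncomputable def δ (n : ℕ) : ℝ :=
  (γ (n + 1) * Real.log (γ (n + 1)) - γ n * Real.log (γ n)) / (2 * Real.pi)

/-- On the Riemann hypothesis, let `s > 1/2`.  There is `ε > 0` such that for all large `N` at least
`ε N` of the normalised gaps `δ_1, …, δ_N` have distance at least `ε` from `s ℤ`.  Moreover, for
every `0 < η < 1` with `1 / s < 1 + η` there are `c, κ > 0` such that for all large `T` and all
`T ^ η ≤ H ≤ T / 8` the interval `(t, t + H]` contains at least `c H log T` zeros `γ_n` for which
`δ_n` has distance at least `c` from `s ℤ`, for all `t ∈ [T, 2T]` outside a set of measure at most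
`T ^ (1 - κ)`. -/
theorem result (RH : RiemannHypothesis) (s : ℝ) (hs : 1 / 2 < s) :
    (∃ ε : ℝ, 0 < ε ∧ ∀ᶠ N : ℕ in atTop,
      ε * N ≤ ({n : ℕ | 1 ≤ n ∧ n ≤ N ∧ ∀ k : ℤ, ε ≤ |δ n - s * k|}.ncard : ℝ)) ∧
    (∀ η : ℝ, 0 < η → η < 1 → 1 / s < 1 + η →
      ∃ c κ : ℝ, 0 < c ∧ 0 < κ ∧ ∃ T₀ : ℝ, ∀ T : ℝ, T₀ ≤ T → ∀ H : ℝ, T ^ η ≤ H → H ≤ T / 8 →
        volume {t : ℝ | T ≤ t ∧ t ≤ 2 * T ∧
          ({n : ℕ | 1 ≤ n ∧ t < γ n ∧ γ n ≤ t + H ∧ ∀ k : ℤ, c ≤ |δ n - s * k|}.ncard : ℝ) <
            c * (H * Real.log T)} ≤ ENNReal.ofReal (T ^ (1 - κ))) := by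
  have hdel : ∀ n, H177.Lat.del n = δ n := fun n => rfl
  have hord : ∀ n, SG.ord n = γ n := fun n => rfl
  have hs0 : 0 < s := by linarith
  have hθ0 : 0 < 1 / s := by positivity
  have e : ∀ (n : ℕ) (k : ℤ), H177.Lat.del n - k / (1 / s) = δ n - s * k := by
    intro n k
    rw [hdel, div_div_eq_mul_div, div_one]
    ring
  refine ⟨?_, fun η h1 h2 h3 => ?_⟩
  · obtain ⟨ε, hε, h⟩ := H177.Lat.lattice RH (1 / s) hθ0 (by
      rw [div_lt_iff₀ hs0]; linarith)
    refine ⟨ε, hε, ?_⟩
    filter_upwards [h] with N hN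
    simp only [e] at hN
    exact hN
  · obtain ⟨c, κ, hc, hκ, T0, -, h⟩ := H177.Lat.almost_delta RH η (1 / s) h1 h2 hθ0 h3
    refine ⟨c, κ, hc, hκ, T0, fun T hT H hH1 hH2 => ?_⟩
    have h4 := h T hT H hH1 hH2
    simp only [e, hord] at h4
    exact h4

end Pool.Agent.Results.MP_21f43f_nt.LatticeExclusion
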