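import Pool.Agent.TH800.MS.Sg5

namespace Pool.Agent.Results.MP_21f43f_nt.SmallGapsMicroscopic

/-- multiplicity of `s` as a zero of the Riemann zeta function (order of vanishing at `s`) -/
noncomputable def zmult (s : ℂ) : ℕ := analyticOrderNatAt riemannZeta s

/-- the number of nontrivial zeros of `ζ` with ordinate in `(0, t]`, with multiplicity -/
noncomputable def NZ (t : ℝ) : ℕ :=
  ∑ᶠ s ∈ {s : ℂ | riemannZeta s = 0 ∧ 0 < s.re ∧ s.re < 1 ∧ 0 < s.im ∧ s.im ≤ t}, zmult s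

/-- for `n ≥ 1`: the `n`-th positive ordinate `γ n` of a nontrivial zero of `ζ`, the ordinates being
listed in nondecreasing order and repeated according to multiplicity -/
noncomputable def γ (n : ℕ) : ℝ := sInf {t : ℝ | n ≤ NZ t}

/-- the normalised gaps `δ_n = (γ_{n+1} log γ_{n+1} - γ_n log γ_n) / 2π` -/
noncomputable def δ (n : ℕ) : ℝ :=
  (γ (n + 1) * Real.log (γ (n + 1)) - γ n * Real.log (γ n)) / (2 * Real.pi)

/-- the function `G(β) = β + 2β ∫_0^{1/2} α (1 - βα + sin(2πβα)/(2π)) dα` -/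
noncomputable def G (β : ℝ) : ℝ :=
  β + 2 * β * ∫ α in (0 : ℝ)..(1 / 2),
    α * (1 - β * α + Real.sin (2 * Real.pi * (β * α)) / (2 * Real.pi))

/-- On the Riemann hypothesis: if `0 < β ≤ 1` and `G(β) > 1` then the indices `n ≤ N` for which
none of the `m` consecutive normalised gaps `δ_n, …, δ_{n+m-1}` is smaller than `β` number at most
`C N (m^{-3/4} + 1/log N)`, uniformly in `N ≥ 2` and `m ≥ 1`; the value `β = 0.83` is admissible;
consequently for every `ε > 0` there is a fixed `m` such that for all large `N`, all but at most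
`ε N` of the `n ≤ N` have a gap `δ_{n+i} < 0.83` with `0 ≤ i < m`. -/
theorem result (RH : RiemannHypothesis) :
    (∀ β : ℝ, 0 < β → β ≤ 1 → 1 < G β → ∃ C : ℝ, 0 < C ∧ ∀ N : ℕ, 2 ≤ N → ∀ m : ℕ, 1 ≤ m →
      ({n : ℕ | 1 ≤ n ∧ n ≤ N ∧ ∀ i < m, β ≤ δ (n + i)}.ncard : ℝ) ≤
        C * (N * ((m : ℝ) ^ (-(3 / 4) : ℝ) + 1 / Real.log N))) ∧
    1 < G (83 / 100) ∧
    (∀ ε : ℝ, 0 < ε → ∃ m N₀ : ℕ, ∀ N : ℕ, N₀ ≤ N →
      ({n : ℕ | 1 ≤ n ∧ n ≤ N ∧ ∀ i < m, 83 / 100 ≤ δ (n + i)}.ncard : ℝ) ≤ ε * N) := by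
  have hG : ∀ β : ℝ, G β = H370.A3.gg β (1 / 2) := fun β => rfl
  have h1 : ∀ β : ℝ, 0 < β → β ≤ 1 → 1 < G β → ∃ C : ℝ, 0 < C ∧ ∀ N : ℕ, 2 ≤ N →
      ∀ m : ℕ, 1 ≤ m → ({n : ℕ | 1 ≤ n ∧ n ≤ N ∧ ∀ i < m, β ≤ δ (n + i)}.ncard : ℝ) ≤
        C * (N * ((m : ℝ) ^ (-(3 / 4) : ℝ) + 1 / Real.log N)) := fun β h1 h2 h3 => by
    rw [hG] at h3
    exact Pool.Agent.TH800.MS.runs RH β h1 h2 h3
  have h2 : 1 < G (83 / 100) := by
    have := H370.A3.gg_lower (β := 83 / 100) (lam := 1 / 2) (by norm_num) (by norm_num)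
    rw [hG]
    refine lt_of_lt_of_le ?_ this
    norm_num
  refine ⟨h1, h2, fun ε hε => ?_⟩
  obtain ⟨C, hC, h3⟩ := h1 (83 / 100) (by norm_num) (by norm_num) h2
  have e1 : ∀ᶠ m : ℕ in Filter.atTop, C * (m : ℝ) ^ (-(3 / 4) : ℝ) ≤ ε / 2 := by
    have h4 : Filter.Tendsto (fun m : ℕ => C * (m : ℝ) ^ (-(3 / 4) : ℝ)) Filter.atTop
        (nhds (C * 0)) :=
      ((tendsto_rpow_neg_atTop (by norm_num : (0 : ℝ) < 3 / 4)).comp
        tendsto_natCast_atTop_atTop).const_mul C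
    rw [mul_zero] at h4
    exact h4.eventually_le_const (by positivity)
  obtain ⟨m, hm1, hm2⟩ := (e1.and (Filter.eventually_ge_atTop 1)).exists
  have e2 : ∀ᶠ N : ℕ in Filter.atTop, C * (1 / Real.log N) ≤ ε / 2 := by
    have h4 : Filter.Tendsto (fun N : ℕ => C * (1 / Real.log N)) Filter.atTop (nhds (C * 0)) := by
      have h5 : Filter.Tendsto (fun N : ℕ => (Real.log N)⁻¹) Filter.atTop (nhds 0) :=
        tendsto_inv_atTop_zero.comp (Real.tendsto_log_atTop.comp tendsto_natCast_atTop_atTop)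
      simp only [one_div]
      exact h5.const_mul C
    rw [mul_zero] at h4
    exact h4.eventually_le_const (by positivity)
  obtain ⟨N₁, hN₁⟩ := e2.exists_forall_of_atTop
  refine ⟨m, max 2 N₁, fun N hN => (h3 N ((le_max_left _ _).trans hN) m hm2).trans ?_⟩
  have h4 := hN₁ N ((le_max_right _ _).trans hN)
  have h5 : C * (N * ((m : ℝ) ^ (-(3 / 4) : ℝ) + 1 / Real.log N)) =
      (C * (m : ℝ) ^ (-(3 / 4) : ℝ) + C * (1 / Real.log N)) * N := by ring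
  rw [h5]
  apply mul_le_mul_of_nonneg_right _ (Nat.cast_nonneg _)
  linarith

end Pool.Agent.Results.MP_21f43f_nt.SmallGapsMicroscopic
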